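import Pool.Agent.H71.PF.Defs
import Pool.Agent.H69.Sp.TrB

/-!
# The sizes of the finite models of a prenex sentence with function symbols form a spectrum
(MP_64fb07_lc), row SF
-/

set_option autoImplicit false

namespace Pool.Agent.H14.FX

open Pool.Agent.H71.PF Pool.Agent.H69.Sp

/-! ### Formulas -/

/-- the name of the relation symbol `i` -/
def cr (i : ℕ) : ℕ := 2 * i

/-- the name of the graph of the function symbol `i` of arity `k` -/
def cf (i k : ℕ) : ℕ := 2 * Nat.pair i k + 1

def ex (x : ℕ) (φ : Fm) : Fm := .neg (.all x (.neg φ))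

def exs : ℕ → ℕ → Fm → Fm
  | _, 0, φ => φ
  | b, n + 1, φ => ex b (exs (b + 1) n φ)

def conj (l : List Fm) : Fm := l.foldr Fm.and (.eq 0 0)

/-- the value of the term is the value of the variable `y`; the variables `b, b + 1, …` are new -/
def E : Tm → ℕ → ℕ → Fm
  | .var x, y, _ => .eq y x
  | @Tm.app i k ts, y, b => exs b k (.and (conj (List.ofFn fun j => E (ts j) (b + j) (b + k)))
      (.rel (cf i k) (List.ofFn (fun j : Fin k => b + (j : ℕ)) ++ [y])))

/-- translation of quantifier-free formulas -/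
def tq (b : ℕ) : QF → Fm
  | .rel i ts => exs b ts.length (.and (conj (List.ofFn fun j : Fin ts.length =>
      E (ts.get j) (b + j) (b + ts.length)))
      (.rel (cr i) (List.ofFn fun j : Fin ts.length => b + (j : ℕ))))
  | .eq s t => ex b (.and (E s b (b + 1)) (E t b (b + 1)))
  | .neg φ => .neg (tq b φ)
  | .and φ ψ => .and (tq b φ) (tq b ψ)

/-- translation of prenex formulas -/
def tp (b : ℕ) (φ : QF) : List Bool → ℕ → Fm
  | [], _ => tq b φ
  | true :: π, k => .all k (tp b φ π (k + 1))
  | false :: π, k => ex k (tp b φ π (k + 1))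

/-- the graph of a function -/
def Ax (i k : ℕ) : Fm :=
  .neg (exs 0 k (.neg (ex k (.and (.rel (cf i k) (List.ofFn (fun j : Fin k => (j : ℕ)) ++ [k]))
    (.all (k + 1) (.neg (.and (.rel (cf i k) (List.ofFn (fun j : Fin k => (j : ℕ)) ++ [k + 1]))
      (.neg (.eq (k + 1) k)))))))))

/-- the function symbols of a term -/
def fsT : Tm → List (ℕ × ℕ)
  | .var _ => []
  | @Tm.app i k ts => (i, k) :: (List.ofFn fun j => fsT (ts j)).flatten

/-- the function symbols of a formula -/
def fsQ : QF → List (ℕ × ℕ)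
  | .rel _ ts => (ts.map fsT).flatten
  | .eq s t => fsT s ++ fsT t
  | .neg φ => fsQ φ
  | .and φ ψ => fsQ φ ++ fsQ ψ

/-! ### Satisfaction -/

section

variable {α : Type} {f : ℕ → List α → α} {R : ℕ → List α → Prop} {I : ℕ → List α → Prop}

/-- satisfaction in the universe `α` -/
abbrev St (I : ℕ → List α → Prop) (φ : Fm) (v : ℕ → α) : Prop := Sat (fun _ : α => True) I φ v

theorem st_ex (x : ℕ) (φ : Fm) (v : ℕ → α) :
    St I (ex x φ) v ↔ ∃ a, St I φ (Function.update v x a) := by
  change (¬ ∀ a, True → ¬ St I φ (Function.update v x a)) ↔ _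
  constructor
  · intro h
    by_contra hc
    exact h fun a _ ha => hc ⟨a, ha⟩
  · rintro ⟨a, ha⟩ h
    exact h a trivial ha

theorem st_exs (n : ℕ) : ∀ (b : ℕ) (φ : Fm) (v : ℕ → α),
    St I (exs b n φ) v ↔ ∃ w : ℕ → α, (∀ x, x < b ∨ b + n ≤ x → w x = v x) ∧ St I φ w := by
  induction n with
  | zero =>
    intro b φ v
    constructor
    · intro h
      exact ⟨v, fun _ _ => rfl, h⟩
    · rintro ⟨w, hw, h⟩
      have : w = v := funext fun x => hw x (by omega)
      rwa [this] at h
  | succ n ih =>
    intro b φ v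
    change St I (ex b (exs (b + 1) n φ)) v ↔ _
    rw [st_ex]
    constructor
    · rintro ⟨a, ha⟩
      obtain ⟨w, hw, h⟩ := (ih _ _ _).1 ha
      refine ⟨w, fun x hx => ?_, h⟩
      rw [hw x (by omega), Function.update_of_ne (by omega)]
    · rintro ⟨w, hw, h⟩
      refine ⟨w b, (ih _ _ _).2 ⟨w, fun x hx => ?_, h⟩⟩
      by_cases hxb : x = b
      · rw [hxb, Function.update_self]
      · rw [Function.update_of_ne hxb]
        exact hw x (by omega)

theorem st_conj (l : List Fm) (v : ℕ → α) : St I (conj l) v ↔ ∀ φ ∈ l, St I φ v := by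
  induction l with
  | nil =>
    constructor
    · intro _ φ hφ
      exact absurd hφ (by simp)
    · intro _
      exact rfl
  | cons φ l ih =>
    rw [List.forall_mem_cons, ← ih]
    exact Iff.rfl

/-- the names of the graphs of functions -/
def Gr (f : ℕ → List α → α) (I : ℕ → List α → Prop) (S : List (ℕ × ℕ)) : Prop :=
  ∀ p ∈ S, ∀ l : List α, l.length = p.2 → ∀ y, I (cf p.1 p.2) (l ++ [y]) ↔ y = f p.1 l

theorem val_congr (t : Tm) : ∀ (c : ℕ) (v w : ℕ → α), t.Vars c → (∀ x < c, v x = w x) →
    t.val f v = t.val f w := by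
  induction t with
  | var x =>
    intro c v w h hvw
    exact hvw x h
  | app i ts ih =>
    intro c v w h hvw
    change f i _ = f i _
    congr 1
    refine congrArg List.ofFn (funext fun j => ?_)
    exact ih j c v w (h j) hvw

/-- `v` with the values `g` at the places `b, …, b + k - 1` -/
def upd (v : ℕ → α) (b : ℕ) {k : ℕ} (g : Fin k → α) (x : ℕ) : α :=
  if h : b ≤ x ∧ x < b + k then g ⟨x - b, by omega⟩ else v x

theorem upd_in (v : ℕ → α) (b : ℕ) {k : ℕ} (g : Fin k → α) (j : Fin k) :
    upd v b g (b + j) = g j := by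
  unfold upd
  have hj := j.2
  rw [dif_pos ⟨by omega, by omega⟩]
  congr 1
  exact Fin.ext (by simp)

theorem upd_out (v : ℕ → α) (b : ℕ) {k : ℕ} (g : Fin k → α) {x : ℕ} (h : x < b ∨ b + k ≤ x) :
    upd v b g x = v x := by
  unfold upd
  rw [dif_neg (by omega)]

theorem st_block {k : ℕ} (ts : Fin k → Tm) (c b : ℕ) (hV : ∀ j, (ts j).Vars c) (hc : c ≤ b)
    (ih : ∀ (j : Fin k) (w : ℕ → α),
      St I (E (ts j) (b + j) (b + k)) w ↔ w (b + j) = (ts j).val f w) (ψ : Fm) (v : ℕ → α) :
    St I (exs b k (.and (conj (List.ofFn fun j => E (ts j) (b + j) (b + k))) ψ)) v ↔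
      St I ψ (upd v b fun j => (ts j).val f v) := by
  have hval : ∀ w : ℕ → α, (∀ x, x < b ∨ b + k ≤ x → w x = v x) → ∀ j,
      (ts j).val f w = (ts j).val f v := fun w hw j =>
    val_congr (ts j) c w v (hV j) fun x hx => hw x (by omega)
  rw [st_exs]
  constructor
  · rintro ⟨w, hw, h1, h2⟩
    have h3 := (st_conj _ _).1 h1
    have h4 : w = upd v b fun j => (ts j).val f v := by
      funext x
      by_cases hx : b ≤ x ∧ x < b + k
      · obtain ⟨j, rfl⟩ : ∃ j : Fin k, x = b + j := ⟨⟨x - b, by omega⟩, by simp; omega⟩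
        rw [upd_in, ← hval w hw j]
        exact (ih j w).1 (h3 _ (List.mem_ofFn.2 ⟨j, rfl⟩))
      · rw [upd_out _ _ _ (by omega), hw x (by omega)]
    rw [← h4]
    exact h2
  · intro h
    refine ⟨_, fun x hx => upd_out v b _ hx, (st_conj _ _).2 fun φ hφ => ?_, h⟩
    obtain ⟨j, rfl⟩ := List.mem_ofFn.1 hφ
    refine (ih j _).2 ?_
    rw [upd_in, hval _ fun x hx => upd_out v b _ hx]

theorem st_E (t : Tm) : ∀ (c y b : ℕ) (v : ℕ → α), t.Vars c → c ≤ b → y < b → Gr f I (fsT t) →
    (St I (E t y b) v ↔ v y = t.val f v) := by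
  induction t with
  | var x =>
    intro c y b v _ _ _ _
    exact Iff.rfl
  | @app i k ts ih =>
    intro c y b v hV hc hy hG
    have hG' : ∀ j, Gr f I (fsT (ts j)) := fun j p hp =>
      hG p (List.mem_cons_of_mem _ (List.mem_flatten.2 ⟨_, List.mem_ofFn.2 ⟨j, rfl⟩, hp⟩))
    refine (st_block ts c b hV hc (fun j w => ih j c _ _ w (hV j) (by omega) (by
      have := j.2
      omega) (hG' j)) _ v).trans ?_
    change I (cf i k) ((List.ofFn (fun j : Fin k => b + (j : ℕ)) ++ [y]).map
      (upd v b fun j => (ts j).val f v)) ↔ v y = f i (List.ofFn fun j => (ts j).val f v)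
    rw [List.map_append, List.map_ofFn, List.map_cons, List.map_nil, upd_out _ _ _ (Or.inl hy)]
    have e : (upd v b fun j => (ts j).val f v) ∘ (fun j : Fin k => b + (j : ℕ)) =
        fun j => (ts j).val f v := funext fun j => upd_in _ _ _ _
    rw [e]
    exact hG (i, k) (List.mem_cons_self ..) _ (List.length_ofFn ..) _

theorem st_tq (b : ℕ) (φ : QF) (v : ℕ → α) (hV : φ.Vars b) (hG : Gr f I (fsQ φ))
    (hR : ∀ i l, I (cr i) l ↔ R i l) : St I (tq b φ) v ↔ φ.Sat f R v := by
  induction φ with
  | rel i ts =>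
    have hm : ∀ j : Fin ts.length, ts.get j ∈ ts := fun j => List.get_mem _ _
    have hG' : ∀ j : Fin ts.length, Gr f I (fsT (ts.get j)) := fun j p hp =>
      hG p (List.mem_flatten.2 ⟨_, List.mem_map.2 ⟨_, hm j, rfl⟩, hp⟩)
    refine (st_block (fun j => ts.get j) b b (fun j => hV _ (hm j)) le_rfl
      (fun j w => st_E _ b _ _ w (hV _ (hm j)) (by omega) (by
        have := j.2
        omega) (hG' j)) _ v).trans ?_
    change I (cr i) ((List.ofFn fun j : Fin ts.length => b + (j : ℕ)).map
      (upd v b fun j => (ts.get j).val f v)) ↔ R i (ts.map (Tm.val f v))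
    rw [List.map_ofFn, hR]
    have e : (upd v b fun j => (ts.get j).val f v) ∘ (fun j : Fin ts.length => b + (j : ℕ)) =
        (Tm.val f v) ∘ ts.get := funext fun j => upd_in _ _ _ _
    rw [e, ← List.map_ofFn, List.ofFn_get]
  | eq s t =>
    have hGs : Gr f I (fsT s) := fun p hp => hG p (List.mem_append_left _ hp)
    have hGt : Gr f I (fsT t) := fun p hp => hG p (List.mem_append_right _ hp)
    have hs : ∀ a, s.val f (Function.update v b a) = s.val f v := fun a =>
      val_congr s b _ _ hV.1 fun x hx => Function.update_of_ne (by omega) _ _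
    have ht : ∀ a, t.val f (Function.update v b a) = t.val f v := fun a =>
      val_congr t b _ _ hV.2 fun x hx => Function.update_of_ne (by omega) _ _
    refine (st_ex _ _ _).trans ?_
    change (∃ a, St I (E s b (b + 1)) (Function.update v b a) ∧
      St I (E t b (b + 1)) (Function.update v b a)) ↔ s.val f v = t.val f v
    have e1 : ∀ a, St I (E s b (b + 1)) (Function.update v b a) ↔ a = s.val f v := fun a => by
      rw [st_E s b b (b + 1) _ hV.1 (by omega) (by omega) hGs, Function.update_self, hs]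
    have e2 : ∀ a, St I (E t b (b + 1)) (Function.update v b a) ↔ a = t.val f v := fun a => by
      rw [st_E t b b (b + 1) _ hV.2 (by omega) (by omega) hGt, Function.update_self, ht]
    constructor
    · rintro ⟨a, h1, h2⟩
      exact ((e1 a).1 h1).symm.trans ((e2 a).1 h2)
    · intro h
      exact ⟨s.val f v, (e1 _).2 rfl, (e2 _).2 h⟩
  | neg φ ih => exact not_congr (ih hV hG)
  | and φ ψ ih1 ih2 =>
    exact and_congr (ih1 hV.1 fun p hp => hG p (List.mem_append_left _ hp))
      (ih2 hV.2 fun p hp => hG p (List.mem_append_right _ hp))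

theorem st_tp (b : ℕ) (φ : QF) (hV : φ.Vars b) (hG : Gr f I (fsQ φ))
    (hR : ∀ i l, I (cr i) l ↔ R i l) (π : List Bool) : ∀ (k : ℕ) (v : ℕ → α),
    St I (tp b φ π k) v ↔ Pre f R φ π k v := by
  induction π with
  | nil => intro k v; exact st_tq b φ v hV hG hR
  | cons c π ih =>
    intro k v
    cases c with
    | true =>
      change (∀ a, True → St I (tp b φ π (k + 1)) (Function.update v k a)) ↔
        ∀ a, Pre f R φ π (k + 1) (Function.update v k a)
      exact forall_congr' fun a => ⟨fun h => (ih _ _).1 (h trivial), fun h _ => (ih _ _).2 h⟩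
    | false =>
      refine (st_ex _ _ _).trans ?_
      exact exists_congr fun a => ih _ _

theorem qf_congr (φ : QF) (k : ℕ) (v w : ℕ → α) (hV : φ.Vars k) (h : ∀ i, i < k → v i = w i) :
    φ.Sat f R v ↔ φ.Sat f R w := by
  induction φ with
  | rel i ts =>
    change R i (ts.map _) ↔ R i (ts.map _)
    rw [List.map_congr_left fun t ht => val_congr t k v w (hV t ht) h]
  | eq s t =>
    change s.val f v = t.val f v ↔ s.val f w = t.val f w
    rw [val_congr s k v w hV.1 h, val_congr t k v w hV.2 h]
  | neg φ ih => exact not_congr (ih hV)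
  | and φ ψ ih1 ih2 => exact and_congr (ih1 hV.1) (ih2 hV.2)

theorem pre_congr (φ : QF) (π : List Bool) : ∀ (k : ℕ) (v w : ℕ → α),
    φ.Vars (k + π.length) → (∀ i, i < k → v i = w i) →
      (Pre f R φ π k v ↔ Pre f R φ π k w) := by
  induction π with
  | nil =>
    intro k v w hV h
    exact qf_congr φ k v w hV h
  | cons b π ih =>
    intro k v w hV h
    have hV' : φ.Vars (k + 1 + π.length) := by
      rw [List.length_cons] at hV
      have e : k + 1 + π.length = k + (π.length + 1) := by omega
      rw [e]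
      exact hV
    have hu : ∀ a : α, ∀ i, i < k + 1 → Function.update v k a i = Function.update w k a i := by
      intro a i hi
      by_cases hik : i = k
      · rw [hik, Function.update_self, Function.update_self]
      · rw [Function.update_of_ne hik, Function.update_of_ne hik]
        exact h i (by omega)
    cases b with
    | true => exact forall_congr' fun a => ih (k + 1) _ _ hV' (hu a)
    | false => exact exists_congr fun a => ih (k + 1) _ _ hV' (hu a)

theorem st_Ax (i k : ℕ) (v : ℕ → α) : St I (Ax i k) v ↔ ∀ l : List α, l.length = k →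
    ∃ y, I (cf i k) (l ++ [y]) ∧ ∀ y', I (cf i k) (l ++ [y']) → y' = y := by
  have key : ∀ w : ℕ → α, St I (ex k (.and (.rel (cf i k)
      (List.ofFn (fun j : Fin k => (j : ℕ)) ++ [k])) (.all (k + 1) (.neg (.and (.rel (cf i k)
      (List.ofFn (fun j : Fin k => (j : ℕ)) ++ [k + 1])) (.neg (.eq (k + 1) k))))))) w ↔
      ∃ y, I (cf i k) (List.ofFn (fun j : Fin k => w j) ++ [y]) ∧
        ∀ y', I (cf i k) (List.ofFn (fun j : Fin k => w j) ++ [y']) → y' = y := by
    intro w
    refine (st_ex _ _ _).trans (exists_congr fun y => ?_)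
    have e1 : (List.ofFn (fun j : Fin k => (j : ℕ)) ++ [k]).map (Function.update w k y) =
        List.ofFn (fun j : Fin k => w j) ++ [y] := by
      rw [List.map_append, List.map_ofFn, List.map_cons, List.map_nil, Function.update_self]
      congr 2
      funext j
      have := j.2
      change Function.update w k y j.1 = w j.1
      rw [Function.update_of_ne (by omega)]
    have e2 : ∀ y', (List.ofFn (fun j : Fin k => (j : ℕ)) ++ [k + 1]).map
        (Function.update (Function.update w k y) (k + 1) y') =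
        List.ofFn (fun j : Fin k => w j) ++ [y'] := fun y' => by
      rw [List.map_append, List.map_ofFn, List.map_cons, List.map_nil, Function.update_self]
      congr 2
      funext j
      have := j.2
      change Function.update (Function.update w k y) (k + 1) y' j.1 = w j.1
      rw [Function.update_of_ne (by omega), Function.update_of_ne (by omega)]
    change (I (cf i k) ((List.ofFn (fun j : Fin k => (j : ℕ)) ++ [k]).map
        (Function.update w k y)) ∧ ∀ y', True → ¬ (I (cf i k)
        ((List.ofFn (fun j : Fin k => (j : ℕ)) ++ [k + 1]).map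
        (Function.update (Function.update w k y) (k + 1) y')) ∧
        ¬ (Function.update (Function.update w k y) (k + 1) y' (k + 1) =
          Function.update (Function.update w k y) (k + 1) y' k))) ↔ _
    rw [e1]
    refine and_congr_right fun _ => forall_congr' fun y' => ?_
    rw [e2, Function.update_self, Function.update_of_ne (by omega), Function.update_self]
    constructor
    · intro h hy
      by_contra hne
      exact h trivial ⟨hy, hne⟩
    · rintro h - ⟨hy, hne⟩
      exact hne (h hy)
  change ¬ St I (exs 0 k _) v ↔ _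
  rw [st_exs]
  constructor
  · intro h l hl
    by_contra hc
    subst hl
    refine h ⟨fun x => if hx : x < l.length then l.get ⟨x, hx⟩ else v x, fun x hx => ?_, ?_⟩
    · change (if hx : x < l.length then l.get ⟨x, hx⟩ else v x) = v x
      rw [dif_neg (by omega)]
    · intro h2
      refine hc ?_
      have h3 := (key _).1 h2
      have e : (List.ofFn fun j : Fin l.length => (fun x => if hx : x < l.length then
          l.get ⟨x, hx⟩ else v x) (j : ℕ)) = l := by
        have e' : (fun j : Fin l.length => (fun x => if hx : x < l.length then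
            l.get ⟨x, hx⟩ else v x) (j : ℕ)) = l.get := funext fun j => dif_pos j.2
        rw [e', List.ofFn_get]
      rw [e] at h3
      exact h3
  · rintro h ⟨w, -, hw⟩
    exact hw ((key w).2 (h _ (List.length_ofFn ..)))

end

theorem pf_SF : ∀ (π : List Bool) (φ : Pool.Agent.H71.PF.QF), φ.Vars π.length →
    Pool.Agent.H69.Sp.IsSpectrum (Pool.Agent.H71.PF.Spec π φ) := by
  classical
  intro π φ hV
  refine isSpectrum_of_defs (φ := .and (conj ((fsQ φ).map fun p => Ax p.1 p.2))
    (tp π.length φ π 0)) ?_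
  intro n
  constructor
  · rintro ⟨hn, f, R, hR⟩
    let I' : ℕ → List (Fin n) → Prop := fun c l =>
      if c % 2 = 0 then R (c / 2) l else ∃ l' y, l = l' ++ [y] ∧ y = f (Nat.unpair (c / 2)).1 l'
    have h1 : ∀ i l, I' (cr i) l ↔ R i l := fun i l => by
      change (if (2 * i) % 2 = 0 then R ((2 * i) / 2) l else _) ↔ _
      rw [if_pos (by omega), Nat.mul_div_cancel_left _ (by omega)]
    have h2 : ∀ i k (l : List (Fin n)) y, I' (cf i k) (l ++ [y]) ↔ y = f i l := fun i k l y => by
      change (if (2 * Nat.pair i k + 1) % 2 = 0 then _ else ∃ l' z, l ++ [y] = l' ++ [z] ∧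
        z = f (Nat.unpair ((2 * Nat.pair i k + 1) / 2)).1 l') ↔ _
      have e : (2 * Nat.pair i k + 1) / 2 = Nat.pair i k := by omega
      rw [if_neg (by omega), e, Nat.unpair_pair]
      constructor
      · rintro ⟨l', z, h3, h4⟩
        obtain ⟨h5, h6⟩ := List.append_inj' h3 rfl
        have h7 : y = z := (List.cons.inj h6).1
        rw [h7, h5]
        exact h4
      · intro h
        exact ⟨l, y, rfl, h⟩
    have hG : Gr f I' (fsQ φ) := fun p _ l _ y => h2 p.1 p.2 l y
    have h3 : St I' (.and (conj ((fsQ φ).map fun p => Ax p.1 p.2)) (tp π.length φ π 0))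
        (fun _ => (⟨0, hn⟩ : Fin n)) := by
      refine ⟨(st_conj _ _).2 fun ψ hψ => ?_, (st_tp _ φ hV hG h1 π 0 _).2 (hR _)⟩
      obtain ⟨p, -, rfl⟩ := List.mem_map.1 hψ
      refine (st_Ax _ _ _).2 fun l _ => ⟨f p.1 l, (h2 _ _ _ _).2 rfl, fun y' hy' => ?_⟩
      exact (h2 _ _ _ _).1 hy'
    refine ⟨hn, fun i l => ∃ l' : List (Fin n), l = l'.map Fin.val ∧ I' i l', ?_⟩
    refine (sat_transfer (D := fun _ : Fin n => True) (D' := (· < n)) (I := I')
      (I' := fun i l => ∃ l' : List (Fin n), l = l'.map Fin.val ∧ I' i l')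
      (Fin.val : Fin n → ℕ) (fun a _ => a.2) (fun b hb => ⟨⟨b, hb⟩, trivial, rfl⟩)
      (fun a b _ _ hab => Fin.ext hab) ?_ (v := fun _ => ⟨0, hn⟩) (fun _ => trivial)).1 h3
    intro i l _
    constructor
    · intro h
      exact ⟨l, rfl, h⟩
    · rintro ⟨l', h3, h4⟩
      have h5 : l = l' := (List.map_injective_iff.2 Fin.val_injective) h3
      rw [h5]
      exact h4
  · rintro ⟨hn, I, hI⟩
    have h3 : St (fun i l => I i (l.map Fin.val)) (.and (conj ((fsQ φ).map fun p => Ax p.1 p.2))
        (tp π.length φ π 0)) (fun _ => (⟨0, hn⟩ : Fin n)) :=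
      (sat_transfer (D := fun _ : Fin n => True) (D' := (· < n))
        (I := fun i l => I i (l.map Fin.val)) (I' := I)
        (Fin.val : Fin n → ℕ) (fun a _ => a.2) (fun b hb => ⟨⟨b, hb⟩, trivial, rfl⟩)
        (fun a b _ _ hab => Fin.ext hab) (fun i l _ => Iff.rfl)
        (v := fun _ => ⟨0, hn⟩) (fun _ => trivial)).2 hI
    obtain ⟨h4, h5⟩ := h3
    obtain ⟨I', hI'⟩ : ∃ I' : ℕ → List (Fin n) → Prop, I' = fun i l => I i (l.map Fin.val) :=
      ⟨_, rfl⟩
    rw [← hI'] at h4 h5
    let f : ℕ → List (Fin n) → Fin n := fun i l =>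
      if h : ∃ y, I' (cf i l.length) (l ++ [y]) then h.choose else ⟨0, hn⟩
    have hG : Gr f I' (fsQ φ) := by
      intro p hp l hl y
      have h6 := (st_Ax _ _ _).1 ((st_conj _ _).1 h4 _ (List.mem_map.2 ⟨p, hp, rfl⟩)) l hl
      obtain ⟨z, hz1, hz2⟩ := h6
      have hex : ∃ y, I' (cf p.1 l.length) (l ++ [y]) := ⟨z, by rw [hl]; exact hz1⟩
      have h7 : f p.1 l = hex.choose := dif_pos hex
      have h8 : I' (cf p.1 p.2) (l ++ [f p.1 l]) := by
        have e : cf p.1 l.length = cf p.1 p.2 := by rw [hl]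
        rw [h7, ← e]
        exact hex.choose_spec
      constructor
      · intro hy
        rw [hz2 y hy, ← hz2 _ h8]
      · intro hy
        rw [hy]
        exact h8
    refine ⟨hn, f, fun i l => I' (cr i) l, fun v => ?_⟩
    have h6 := (st_tp (R := fun i l => I' (cr i) l) _ φ hV hG (fun _ _ => Iff.rfl) π 0 _).1 h5
    refine (pre_congr φ π 0 _ v ?_ fun i hi => absurd hi (Nat.not_lt_zero i)).1 h6
    rw [zero_add]
    exact hV

end Pool.Agent.H14.FX
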